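import Mathlib

/-!
# HH: subgraphs of large minimum degree
-/

namespace Pool.Agent.Helper63.HH

open Set

theorem core {V : Type} [Finite V] (Γ : SimpleGraph V) (q : ℕ) : ∀ (n : ℕ) (W : Set V),
    W.ncard = n → 2 * q * n < {e : V × V | e.1 ∈ W ∧ e.2 ∈ W ∧ Γ.Adj e.1 e.2}.ncard →
    ∃ W' ⊆ W, W'.Nonempty ∧ ∀ s ∈ W', q + 1 ≤ {t | t ∈ W' ∧ Γ.Adj s t}.ncard := by
  intro n
  induction n with
  | zero =>
    intro W hW h
    exfalso
    have h1 : W = ∅ := (Set.ncard_eq_zero (Set.toFinite _)).1 hW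
    have h2 : {e : V × V | e.1 ∈ W ∧ e.2 ∈ W ∧ Γ.Adj e.1 e.2} = ∅ := by
      ext e
      simp [h1]
    rw [h2, Set.ncard_empty] at h
    exact absurd h (Nat.not_lt_zero _)
  | succ n ih =>
    intro W hW h
    by_cases hall : ∀ s ∈ W, q + 1 ≤ {t | t ∈ W ∧ Γ.Adj s t}.ncard
    · refine ⟨W, subset_rfl, ?_, hall⟩
      exact (Set.ncard_pos (Set.toFinite _)).1 (by omega)
    · push Not at hall
      obtain ⟨s, hs, hds⟩ := hall
      have hc : (W \ {s}).ncard = n := by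
        have h1 := Set.ncard_diff_singleton_add_one hs (Set.toFinite W)
        omega
      have hsub : {e : V × V | e.1 ∈ W ∧ e.2 ∈ W ∧ Γ.Adj e.1 e.2} ⊆
          {e : V × V | e.1 ∈ W \ {s} ∧ e.2 ∈ W \ {s} ∧ Γ.Adj e.1 e.2} ∪
          ((fun t => (s, t)) '' {t | t ∈ W ∧ Γ.Adj s t} ∪
            (fun t => (t, s)) '' {t | t ∈ W ∧ Γ.Adj s t}) := by
        rintro ⟨u, v⟩ ⟨h1, h2, h3⟩
        simp only at h1 h2 h3
        by_cases hu : u = s
        · subst hu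
          exact Or.inr (Or.inl ⟨v, ⟨h2, h3⟩, rfl⟩)
        · by_cases hv : v = s
          · subst hv
            exact Or.inr (Or.inr ⟨u, ⟨h1, h3.symm⟩, rfl⟩)
          · exact Or.inl ⟨⟨h1, hu⟩, ⟨h2, hv⟩, h3⟩
      have h1 := Set.ncard_le_ncard hsub (Set.toFinite _)
      have h2 := Set.ncard_union_le {e : V × V | e.1 ∈ W \ {s} ∧ e.2 ∈ W \ {s} ∧ Γ.Adj e.1 e.2}
        ((fun t => (s, t)) '' {t | t ∈ W ∧ Γ.Adj s t} ∪
          (fun t => (t, s)) '' {t | t ∈ W ∧ Γ.Adj s t})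
      have h3 := Set.ncard_union_le ((fun t => (s, t)) '' {t | t ∈ W ∧ Γ.Adj s t})
        ((fun t => (t, s)) '' {t | t ∈ W ∧ Γ.Adj s t})
      have h4 := Set.ncard_image_le (f := fun t => (s, t)) (s := {t | t ∈ W ∧ Γ.Adj s t})
        (Set.toFinite _)
      have h5 := Set.ncard_image_le (f := fun t => (t, s)) (s := {t | t ∈ W ∧ Γ.Adj s t})
        (Set.toFinite _)
      have h6 : 2 * q * (n + 1) = 2 * q * n + 2 * q := by ring
      rw [h6] at h
      obtain ⟨W', hW', hne, hdeg⟩ := ih (W \ {s}) hc (by omega)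
      exact ⟨W', hW'.trans Set.diff_subset, hne, hdeg⟩

end Pool.Agent.Helper63.HH
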