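import Pool.Agent.Helper93.HH.Sys
import Pool.Agent.Helper63.HH.Super
import Pool.Agent.Helper63.HH.Core

/-!
# HH-TC: few thick cells
-/

open Set
open Pool.Agent.Helper83.OP
open Pool.Agent.Helper93.HH

namespace Pool.Agent.Helper63.HH

/-! ## Numbers -/

private theorem num1 (c : ℕ) : ∃ x0 : ℕ, ∀ x, x0 ≤ x → c * (Nat.log 2 x + 10) ^ 3 < x := by
  have h1 := tendsto_pow_const_div_const_pow_of_one_lt 3 (show (1 : ℝ) < 2 by norm_num)
  have hpos : (0 : ℝ) < 1 / (c * 2 ^ 10 + 1) := by positivity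
  have h2 := (h1.eventually (gt_mem_nhds hpos)).exists_forall_of_atTop
  obtain ⟨n0, hn0⟩ := h2
  refine ⟨2 ^ n0, fun x hx => ?_⟩
  have hx0 : x ≠ 0 := by
    have := Nat.two_pow_pos n0
    omega
  have h3 : n0 ≤ Nat.log 2 x := by
    have h4 := Nat.log_mono_right (b := 2) hx
    rwa [Nat.log_pow (by norm_num)] at h4
  have h5 := hn0 (Nat.log 2 x + 10) (by omega)
  rw [div_lt_div_iff₀ (by positivity) (by positivity), one_mul] at h5
  have h6 : (Nat.log 2 x + 10) ^ 3 * (c * 2 ^ 10 + 1) < 2 ^ (Nat.log 2 x + 10) := by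
    exact_mod_cast h5
  have h7 : 2 ^ Nat.log 2 x ≤ x := Nat.pow_log_le_self 2 hx0
  rw [pow_add] at h6
  have h8 : c * (Nat.log 2 x + 10) ^ 3 * 2 ^ 10 < 2 ^ Nat.log 2 x * 2 ^ 10 := by
    calc c * (Nat.log 2 x + 10) ^ 3 * 2 ^ 10 ≤ (Nat.log 2 x + 10) ^ 3 * (c * 2 ^ 10 + 1) := by
          rw [mul_add, mul_one]
          have : c * (Nat.log 2 x + 10) ^ 3 * 2 ^ 10 = (Nat.log 2 x + 10) ^ 3 * (c * 2 ^ 10) := by
            ring
          omega
      _ < _ := h6
  have h9 := Nat.lt_of_mul_lt_mul_right h8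
  omega

private theorem num2 (C0 Kh a : ℕ) : ∃ r0 : ℕ, ∀ r, r0 ≤ r → 1 ≤ Kh →
    ∃ q, 2 ≤ q ∧ 2 * q * (1 + a * (Nat.log 2 (4 * Kh * r + 2) + 10)) < 4 * Kh * r - 5 ∧
      24 * (4 * (9 * (2 * (201 * (C0 * r * (Nat.log 2 (4 * Kh * r + 2) + 10))) + 1)) + 1) <
        q ^ 2 := by
  set b := 2 * (1 + a) with hb
  set c1 := 24 * (4 * (9 * (402 * C0 + 1)) + 1) with hc1
  obtain ⟨x0, hx0⟩ := num1 (8 * c1 * b ^ 2 + 8 * b + 100)
  refine ⟨x0, fun r hr hKh => ?_⟩
  set x := 4 * Kh * r + 2 with hx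
  set l := Nat.log 2 x + 10 with hl
  have hxr : r ≤ x := by
    have : 1 * r ≤ 4 * Kh * r := Nat.mul_le_mul_right _ (by omega)
    omega
  have h1 := hx0 x (hr.trans hxr)
  rw [← hl] at h1
  have hl10 : 10 ≤ l := by omega
  have hl1 : 1 ≤ l := by omega
  have hl3 : l ≤ l ^ 3 := Nat.le_self_pow (by norm_num) l
  have e1 : (8 * c1 * b ^ 2 + 8 * b + 100) * l ^ 3 =
      8 * c1 * b ^ 2 * l ^ 3 + 8 * (b * l ^ 3) + 100 * l ^ 3 := by ring
  rw [e1] at h1
  have h2 : b * l ≤ b * l ^ 3 := Nat.mul_le_mul_left _ hl3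
  set B := 2 * (1 + a * l) with hB
  have hBb : B ≤ b * l := by
    rw [hB, hb]
    have : 2 * (1 + a) * l = 2 * l + 2 * (a * l) := by ring
    omega
  have hBpos : 0 < B := by omega
  set q := (x - 8) / B with hq
  have hqB : q * B ≤ x - 8 := Nat.div_mul_le_self _ _
  have hqB2 : x - 8 < (q + 1) * B := by
    have := Nat.lt_div_mul_add (a := x - 8) hBpos
    rw [add_mul, one_mul]
    exact this
  have hkey : x ≤ 2 * (q * (b * l)) := by
    rw [add_mul, one_mul] at hqB2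
    have : q * B ≤ q * (b * l) := Nat.mul_le_mul_left _ hBb
    omega
  have hq2 : 2 ≤ q := by
    rw [hq, Nat.le_div_iff_mul_le hBpos]
    omega
  refine ⟨q, hq2, ?_, ?_⟩
  · have : 2 * q * (1 + a * l) = q * B := by rw [hB]; ring
    rw [this]
    omega
  · by_contra hcon
    push Not at hcon
    have h3 : 24 * (4 * (9 * (2 * (201 * (C0 * r * l)) + 1)) + 1) ≤ c1 * (x * l) := by
      have h4 : r * l ≤ x * l := Nat.mul_le_mul_right _ hxr
      have h5 : 1 ≤ x * l := Nat.mul_pos (by omega) hl1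
      have h6 : C0 * (r * l) ≤ C0 * (x * l) := Nat.mul_le_mul_left _ h4
      have e2 : c1 * (x * l) = 24 * (4 * (9 * (402 * (C0 * (x * l)) + x * l)) + x * l) := by
        rw [hc1]; ring
      have e3 : C0 * r * l = C0 * (r * l) := by ring
      rw [e2, e3]
      omega
    have h4 : q ^ 2 ≤ c1 * (x * l) := hcon.trans h3
    have h5 : x ^ 2 ≤ (2 * (q * (b * l))) ^ 2 := Nat.pow_le_pow_left hkey 2
    have h6 : (2 * (q * (b * l))) ^ 2 = q ^ 2 * (4 * (b ^ 2 * l ^ 2)) := by ring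
    have h7 : q ^ 2 * (4 * (b ^ 2 * l ^ 2)) ≤ c1 * (x * l) * (4 * (b ^ 2 * l ^ 2)) :=
      Nat.mul_le_mul_right _ h4
    have h8 : c1 * (x * l) * (4 * (b ^ 2 * l ^ 2)) = (4 * c1 * b ^ 2 * l ^ 3) * x := by ring
    have h9 : x * x ≤ (4 * c1 * b ^ 2 * l ^ 3) * x := by
      rw [← h8, ← sq]
      exact (h5.trans (le_of_eq h6)).trans h7
    have h10 : x ≤ 4 * c1 * b ^ 2 * l ^ 3 := Nat.le_of_mul_le_mul_right h9 (by omega)
    have h11 : 8 * c1 * b ^ 2 * l ^ 3 = 2 * (4 * c1 * b ^ 2 * l ^ 3) := by ring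
    omega

/-! ## The forest of the cells -/

section

variable {V P Q : Type} [Finite V] {D : HD V P Q} {C : Set V} {ra : V → ℕ}

theorem Cel_iter (E : Cel D C ra) : ∀ (k : ℕ) (v : V), k ≤ E.dep v →
    E.dep (E.par^[k] v) + k = E.dep v ∧ E.ctr (E.par^[k] v) = E.ctr v := by
  intro k
  induction k with
  | zero => intro v _; exact ⟨rfl, rfl⟩
  | succ k ih =>
    intro v hv
    have h0 : E.dep v ≠ 0 := by omega
    have h3 := E.par_dep v h0
    obtain ⟨h4, h5⟩ := ih (E.par v) (by omega)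
    rw [Function.iterate_succ_apply]
    exact ⟨by omega, h5.trans (E.par_ctr v h0)⟩

/-- the cells as a forest in the sense of `Fr` -/
def toFr (E : Cel D C ra) : Fr D.N (fun y => (E.sc y).natAbs) where
  ctr := E.ctr
  par := E.par
  dep := E.dep
  ctr_ctr := E.ctr_ctr
  dep_zero := E.dep_zero
  par_adj := E.par_adj
  par_dep := E.par_dep
  par_ctr := E.par_ctr
  rad := by
    intro v k hk
    obtain ⟨h1, h2⟩ := Cel_iter E k v hk
    have h3 : E.sc v - E.sc (E.par^[k] v) = k := by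
      unfold Cel.sc
      rw [h2]
      omega
    omega

theorem toFr_sparse [Finite P] {K : ℕ} (hD : D.Ok) (S : Sys D K) :
    Sparse D.N (fun y => (S.E.sc y).natAbs) K := by
  intro x Z hZ
  have h1 := S.sparse x Z hZ x Z.start_mem_support
  have h2 : 1 ≤ D.L := by
    have := hD.r_pos
    have := hD.r_le
    omega
  have h3 : ((K * ((S.E.sc x).natAbs + 1) : ℕ) : ℤ) ≤ (K : ℤ) * (|S.E.sc x| + D.L) := by
    push_cast
    exact mul_le_mul_of_nonneg_left (by omega) (by positivity)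
  have h4 : ((K * ((S.E.sc x).natAbs + 1) : ℕ) : ℤ) < (Z.length : ℤ) := lt_of_le_of_lt h3 h1
  exact_mod_cast h4

/-- vertices of positive depth are vertices of `N` -/
theorem dep_VN (E : Cel D C ra) {v : V} (h : E.dep v ≠ 0) : v ∈ D.VN :=
  HD.VN_of_adj (E.par_adj v h)

end

/-! ## The neighbours of a thick cell -/

section

variable {V P Q : Type} [Finite V] [Finite P] {D : HD V P Q} {K : ℕ}

theorem good_ctr (S : Sys D K) {p : P} (hp : p ∉ S.Bd) : S.E.ctr (D.x p) = D.x p :=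
  S.E.ctr_C _ (Or.inr ⟨p, hp, rfl⟩)

theorem good_notZ (S : Sys D K) {p : P} (hp : p ∉ S.Bd) : D.x p ∉ S.Z :=
  fun h => hp (S.bd_ball p _ h (Nr.refl _ _ _))

theorem bad_of (S : Sys D K) {p : P} (hp : S.E.ctr (D.x p) ∈ S.Z) : p ∈ S.Bd := by
  by_contra h
  rw [good_ctr S h] at hp
  exact good_notZ S h hp

open Classical in
theorem thick_deg [Fintype V] (hD : D.Ok) (S : Sys D K) (hK : 8 ≤ K) {z : V} (hz : z ∈ S.Z) :
    D.n0 + 3 ≤ deg (toFr S.E).Q0 z +
      ∑ v ∈ Finset.univ.filter (fun v => S.E.ctr v = z), D.pn v := by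
  set C : Finset V := Finset.univ.filter (fun v => S.E.ctr v = z) with hC
  have hzC : z ∈ S.Z ∪ D.x '' S.Bdᶜ := Or.inl hz
  have hzz : S.E.ctr z = z := S.E.ctr_C z hzC
  have h1 := (toFr S.E).deg_Q0 (toFr_sparse hD S) hK (s := z) hzz C (fun v => by
    rw [hC, Finset.mem_filter]
    exact ⟨fun h => h.2, fun h => ⟨Finset.mem_univ v, h⟩⟩)
  have hVN : ∀ v ∈ C, v ∈ D.VN := by
    intro v hv
    rw [hC, Finset.mem_filter] at hv
    by_cases h0 : S.E.dep v = 0
    · have := (S.E.dep_zero v).1 h0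
      rw [← this, hv.2]
      exact S.Z_VN z hz
    · exact dep_VN S.E h0
  have h2 : ∑ v ∈ C, (D.dg v - 2) + 2 * C.card = ∑ v ∈ C, deg D.N v + ∑ v ∈ C, D.pn v := by
    rw [mul_comm, ← smul_eq_mul, ← Finset.sum_const, ← Finset.sum_add_distrib,
      ← Finset.sum_add_distrib]
    refine Finset.sum_congr rfl fun v hv => ?_
    have := hD.two v (hVN v hv)
    unfold HD.dg at this ⊢
    omega
  have h3 : D.n0 < ∑ v ∈ C, (D.dg v - 2) := by
    have hth := S.Z_thick z hz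
    have hlt : D.Rv z < Nat.card V := by
      have h5 : 100 * D.Rv z < D.sg z := hth
      have h6 := D.sg_le_card z
      omega
    refine lt_of_lt_of_le (D.Rv_spec hlt) ?_
    unfold HD.vol
    refine Finset.sum_le_sum_of_subset fun v hv => ?_
    rw [Set.Finite.mem_toFinset] at hv
    rw [hC, Finset.mem_filter]
    refine ⟨Finset.mem_univ v, S.E.ball z hzC v ?_⟩
    rw [S.ra_Z z hz]
    exact hv
  omega

open Classical in
/-- all pins in thick cells are bad -/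
theorem sum_pn_le [Fintype V] [Fintype P] (S : Sys D K) :
    ∑ z ∈ S.Z.toFinset, ∑ v ∈ Finset.univ.filter (fun v => S.E.ctr v = z), D.pn v ≤
      S.Bd.ncard := by
  have h1 : ∀ v, D.pn v = ∑ p : P, if D.x p = v then 1 else 0 := by
    intro v
    unfold HD.pn
    rw [Finset.sum_boole, Nat.cast_id, ← Set.ncard_coe_finset]
    congr 1
    ext p
    simp
  have h2 : ∀ z, ∑ v ∈ Finset.univ.filter (fun v => S.E.ctr v = z), D.pn v =
      ∑ p : P, if S.E.ctr (D.x p) = z then 1 else 0 := by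
    intro z
    rw [Finset.sum_congr rfl fun v _ => h1 v, Finset.sum_comm]
    refine Finset.sum_congr rfl fun p _ => ?_
    rw [Finset.sum_ite_eq]
    simp
  rw [Finset.sum_congr rfl fun z _ => h2 z, Finset.sum_comm]
  have h3 : ∀ p : P, (∑ z ∈ S.Z.toFinset, if S.E.ctr (D.x p) = z then 1 else 0) ≤
      if p ∈ S.Bd then 1 else 0 := by
    intro p
    rw [Finset.sum_ite_eq]
    split_ifs with h4 h5
    · exact le_rfl
    · exact absurd (bad_of S (by simpa using h4)) h5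
    · exact Nat.zero_le _
    · exact Nat.zero_le _
  refine (Finset.sum_le_sum fun p _ => h3 p).trans (le_of_eq ?_)
  rw [Finset.sum_boole, Nat.cast_id, ← Set.ncard_coe_finset]
  congr 1
  ext p
  simp

/-- the depths -/
theorem dep_le (S : Sys D K) {Λ : ℕ} (hΛ : ∀ y ∈ D.VN, D.Rs y ≤ Λ) (v : V) :
    S.E.dep v ≤ 201 * Λ := by
  by_cases h0 : S.E.dep v = 0
  · omega
  · have hv := dep_VN S.E h0
    have h1 := S.sc_le v hv
    have h2 := hΛ v hv
    have h3 : S.E.sc v ≤ 200 * D.Rs v := (le_abs_self _).trans h1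
    have h4 : S.ra (S.E.ctr v) ≤ Λ := by
      rcases S.E.ctr_mem v hv with h | ⟨p, hp, h⟩
      · rw [S.ra_Z _ h]
        have h5 : 100 * D.Rv (S.E.ctr v) < D.sg (S.E.ctr v) := S.Z_thick _ h
        have h6 := hΛ _ (S.Z_VN _ h)
        unfold HD.Rs at h6
        omega
      · rw [← h, S.ra_x p hp]
        exact Nat.zero_le _
    unfold Cel.sc at h3
    omega

end

/-! ## The theorem -/

open Classical in
theorem TC (C0 Kh A' M2 : ℕ) : ∃ K1 r0 : ℕ, ∀ (V P Q : Type) [Finite V] [Fintype P] [Finite Q]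
    (D : HD V P Q) (K : ℕ) (H : SimpleGraph V) (e0 : Sym2 V) (X : Sym2 V → Sym2 V → Prop)
    (S : Sys D K), D.Ok → D.L ≤ C0 * D.r → D.Kh = Kh → 1 ≤ Kh → r0 ≤ D.r → K1 ≤ K →
    D.NoPl K → D.Dr H e0 X →
    (∀ y ∈ D.VN, D.Rs y ≤ D.L * (Nat.log 2 (D.n0 + 2) + 10)) →
    ∑ p : P, (if p ∈ S.Bd then 0 else 1 / ((D.sg (D.x p) : ℝ) + D.L)) ≤
      A' * ((D.U.ncard : ℝ) + S.Bd.ncard / D.r) →
    M2 * S.Z.ncard ≤ D.r * D.U.ncard := by
  obtain ⟨r0, hr0⟩ := num2 C0 Kh (101 * C0 * A' * (M2 + 8))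
  refine ⟨76, r0, ?_⟩
  intro V P Q _ _ _ D K H e0 X S hD hL hKh hKh1 hr hK hN hDr hg hT
  have := Fintype.ofFinite V
  by_contra hcon
  push Not at hcon
  obtain ⟨q, hq2, hq3, hq4⟩ := hr0 D.r hr hKh1
  set l := Nat.log 2 (4 * Kh * D.r + 2) + 10 with hl
  have hn0 : D.n0 = 4 * Kh * D.r := by unfold HD.n0; rw [hKh]
  have hg' : ∀ y ∈ D.VN, D.Rs y ≤ D.L * l := by
    intro y hy
    have := hg y hy
    rwa [hn0] at this
  have hrpos : 0 < D.r := by have := hD.r_pos; omega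
  have hrR : (0 : ℝ) < D.r := by exact_mod_cast hrpos
  have hLpos : 0 < D.L := by have := hD.r_le; omega
  -- the number of good pins
  have hgood : S.Bdᶜ.ncard ≤ 101 * C0 * A' * (M2 + 8) * l * S.Z.ncard := by
    have h1 : ∀ p : P, (if p ∈ S.Bd then (0 : ℝ) else 1 / (101 * (D.L * l) : ℝ)) ≤
        if p ∈ S.Bd then 0 else 1 / ((D.sg (D.x p) : ℝ) + D.L) := by
      intro p
      split_ifs with hp
      · exact le_rfl
      · have h2 : D.sg (D.x p) + D.L ≤ 101 * (D.L * l) := by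
          have h3 : ¬ D.Thick (D.x p) := fun h => hp (S.bd_thick p h)
          unfold HD.Thick at h3
          have h4 := hg' (D.x p) (HD.x_VN p)
          unfold HD.Rs at h4
          have h5 : D.L * 1 ≤ D.L * l := Nat.mul_le_mul_left _ (by omega)
          omega
        have h3 : ((D.sg (D.x p) : ℝ) + D.L) ≤ 101 * (D.L * l) := by exact_mod_cast h2
        refine one_div_le_one_div_of_le ?_ h3
        have : (0 : ℝ) < D.L := by exact_mod_cast hLpos
        positivity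
    have h2 := (Finset.sum_le_sum fun p _ => h1 p).trans hT
    have h3 : ∑ p : P, (if p ∈ S.Bd then (0 : ℝ) else 1 / (101 * (D.L * l) : ℝ)) =
        S.Bdᶜ.ncard * (1 / (101 * (D.L * l) : ℝ)) := by
      rw [Finset.sum_ite, Finset.sum_const_zero, zero_add, Finset.sum_const, nsmul_eq_mul]
      congr 2
      rw [← Set.ncard_coe_finset]
      congr 1
      ext p
      simp
    rw [h3] at h2
    have hlpos : 0 < l := by omega
    have hLl : (0 : ℝ) < 101 * (D.L * l) := by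
      have h4 : (0 : ℝ) < D.L := by exact_mod_cast hLpos
      have h5 : (0 : ℝ) < l := by exact_mod_cast hlpos
      positivity
    rw [mul_one_div, div_le_iff₀ hLl] at h2
    have hU : (D.U.ncard : ℝ) + S.Bd.ncard / D.r ≤ (M2 + 8) * S.Z.ncard / D.r := by
      rw [le_div_iff₀ hrR, add_mul, div_mul_cancel₀ _ hrR.ne']
      have h4 : D.r * D.U.ncard + S.Bd.ncard ≤ (M2 + 8) * S.Z.ncard := by
        have := S.bd_count
        rw [add_mul]
        omega
      calc (D.U.ncard : ℝ) * D.r + S.Bd.ncard = ((D.r * D.U.ncard + S.Bd.ncard : ℕ) : ℝ) := by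
            push_cast; ring
        _ ≤ (((M2 + 8) * S.Z.ncard : ℕ) : ℝ) := by exact_mod_cast h4
        _ = _ := by push_cast; ring
    have h5 : (S.Bdᶜ.ncard : ℝ) ≤ A' * ((M2 + 8) * S.Z.ncard / D.r) * (101 * (D.L * l)) := by
      refine h2.trans ?_
      refine mul_le_mul_of_nonneg_right ?_ hLl.le
      exact mul_le_mul_of_nonneg_left hU (by positivity)
    have h6 : (D.L : ℝ) ≤ C0 * D.r := by exact_mod_cast hL
    have h7 : A' * ((M2 + 8) * S.Z.ncard / D.r) * (101 * (D.L * l)) ≤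
        (101 * C0 * A' * (M2 + 8) * l * S.Z.ncard : ℝ) := by
      have e1 : A' * ((M2 + 8) * S.Z.ncard / D.r) * (101 * (D.L * l)) =
          (101 * A' * (M2 + 8) * l * S.Z.ncard / D.r : ℝ) * D.L := by ring
      have e2 : (101 * C0 * A' * (M2 + 8) * l * S.Z.ncard : ℝ) =
          (101 * A' * (M2 + 8) * l * S.Z.ncard / D.r : ℝ) * (C0 * D.r) := by
        field_simp
      rw [e1, e2]
      refine mul_le_mul_of_nonneg_left h6 ?_
      positivity
    have h8 := h5.trans h7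
    exact_mod_cast h8
  set a := 101 * C0 * A' * (M2 + 8) with ha
  -- the set of the centres
  set W : Set V := S.Z ∪ D.x '' S.Bdᶜ with hW
  have hWc : W.ncard ≤ (1 + a * l) * S.Z.ncard := by
    have h1 := Set.ncard_union_le S.Z (D.x '' S.Bdᶜ)
    have h2 := Set.ncard_image_le (f := D.x) (s := S.Bdᶜ) (Set.toFinite _)
    rw [add_mul, one_mul]
    exact h1.trans (Nat.add_le_add_left (h2.trans hgood) _)
  have hZpos : 0 < S.Z.ncard := by
    by_contra h
    have h0 : S.Z.ncard = 0 := by omega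
    rw [h0, mul_zero] at hcon
    omega
  -- degrees
  have hsum : (D.n0 - 5) * S.Z.ncard ≤
      {e : V × V | e.1 ∈ W ∧ e.2 ∈ W ∧ (toFr S.E).Q0.Adj e.1 e.2}.ncard := by
    have h1 : (D.n0 + 3) * S.Z.ncard ≤ ∑ z ∈ S.Z.toFinset, deg (toFr S.E).Q0 z + S.Bd.ncard := by
      have h2 : (D.n0 + 3) * S.Z.ncard = ∑ _z ∈ S.Z.toFinset, (D.n0 + 3) := by
        rw [Finset.sum_const, smul_eq_mul, Set.ncard_eq_toFinset_card', mul_comm]
      rw [h2]
      refine le_trans ?_ (Nat.add_le_add_left (sum_pn_le S) _)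
      rw [← Finset.sum_add_distrib]
      exact Finset.sum_le_sum fun z hz => thick_deg hD S (by omega) (by simpa using hz)
    have h3 : ∑ z ∈ S.Z.toFinset, deg (toFr S.E).Q0 z ≤
        {e : V × V | e.1 ∈ W ∧ e.2 ∈ W ∧ (toFr S.E).Q0.Adj e.1 e.2}.ncard := by
      have h4 : {e : V × V | e.1 ∈ S.Z ∧ (toFr S.E).Q0.Adj e.1 e.2}.ncard =
          ∑ z ∈ S.Z.toFinset, deg (toFr S.E).Q0 z := by
        rw [ncard_fiber _ S.Z.toFinset (fun e : V × V => e.1) (fun e he => by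
          simpa using he.1)]
        refine Finset.sum_congr rfl fun z hz => ?_
        have hz' : z ∈ S.Z := by simpa using hz
        unfold deg
        refine (Set.ncard_congr (fun w _ => (z, w)) ?_ ?_ ?_).symm
        · intro w hw
          exact ⟨⟨hz', hw⟩, rfl⟩
        · intro b c _ _ hbc
          exact (Prod.mk.inj hbc).2
        · rintro ⟨b, c⟩ ⟨⟨_, h5⟩, rfl⟩
          exact ⟨c, h5, rfl⟩
      rw [← h4]
      refine Set.ncard_le_ncard ?_ (Set.toFinite _)
      rintro e ⟨h5, h6⟩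
      refine ⟨Or.inl h5, ?_, h6⟩
      obtain ⟨_, u, v, h7, _, h8⟩ := h6
      rw [← h8]
      exact S.E.ctr_mem v (HD.VN_of_adj' h7)
    have h4 := S.bd_count
    have h5 : (D.n0 + 3) * S.Z.ncard ≤
        {e : V × V | e.1 ∈ W ∧ e.2 ∈ W ∧ (toFr S.E).Q0.Adj e.1 e.2}.ncard + 8 * S.Z.ncard :=
      h1.trans (Nat.add_le_add h3 h4)
    have h6 : (D.n0 - 5) * S.Z.ncard + 8 * S.Z.ncard = (D.n0 + 3) * S.Z.ncard := by
      rw [← add_mul]
      congr 1
      have : 5 < D.n0 := by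
        rw [hn0]
        omega
      omega
    rw [← h6] at h5
    exact Nat.le_of_add_le_add_right h5
  have hlt : 2 * q * W.ncard <
      {e : V × V | e.1 ∈ W ∧ e.2 ∈ W ∧ (toFr S.E).Q0.Adj e.1 e.2}.ncard := by
    refine lt_of_lt_of_le ?_ hsum
    calc 2 * q * W.ncard ≤ 2 * q * ((1 + a * l) * S.Z.ncard) := Nat.mul_le_mul_left _ hWc
      _ = (2 * q * (1 + a * l)) * S.Z.ncard := by ring
      _ < (D.n0 - 5) * S.Z.ncard := by
          rw [hn0]
          exact Nat.mul_lt_mul_of_pos_right hq3 hZpos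
  obtain ⟨W', _, hne, hdeg⟩ := core (toFr S.E).Q0 q W.ncard W rfl hlt
  have hNH : D.N ≤ H := by
    intro u v huv
    rw [hDr.eq, SimpleGraph.deleteEdges_adj]
    refine ⟨hD.N_le huv, ?_⟩
    rw [Set.mem_singleton_iff]
    intro h
    exact hDr.e0N (h ▸ (SimpleGraph.mem_edgeSet _).2 huv)
  have hsup := super 2 (toFr S.E) (toFr_sparse hD S) (by omega)
    (D := 201 * (C0 * D.r * l)) (fun v => (dep_le S hg' v).trans
      (Nat.mul_le_mul_left _ (Nat.mul_le_mul_right _ hL)))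
    H hNH X hDr.one hDr.pl W' hne q hq2 hdeg
  omega

end Pool.Agent.Helper63.HH
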