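import Pool.Agent.Helper93.HH.Basic

/-!
# HH: additively weighted Voronoi cells in a graph which need not be connected
-/

open Set
open Pool.Agent.Helper83.OP
open Pool.Agent.Helper93.HH

namespace Pool.Agent.Helper63.HH

theorem nr_iff {V : Type} {G : SimpleGraph V} {t : ℕ} {u v : V} :
    Nr G t u v ↔ G.Reachable u v ∧ G.dist u v ≤ t := by
  constructor
  · rintro ⟨p, hp⟩
    exact ⟨p.reachable, (SimpleGraph.dist_le p).trans hp⟩
  · rintro ⟨h1, h2⟩
    obtain ⟨p, hp⟩ := h1.exists_walk_length_eq_dist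
    exact ⟨p, by omega⟩

theorem dtri {V : Type} {G : SimpleGraph V} {u v w : V} (h1 : G.Reachable u v)
    (h2 : G.Reachable v w) : G.dist u w ≤ G.dist u v + G.dist v w := by
  obtain ⟨p, hp⟩ := h1.exists_walk_length_eq_dist
  obtain ⟨q, hq⟩ := h2.exists_walk_length_eq_dist
  have := SimpleGraph.dist_le (p.append q)
  rw [SimpleGraph.Walk.length_append] at this
  omega

private theorem step {V : Type} {G : SimpleGraph V} {v c : V} (hr : G.Reachable v c)
    (h0 : G.dist v c ≠ 0) : ∃ u, G.Adj v u ∧ G.dist u c + 1 = G.dist v c := by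
  obtain ⟨p, hp⟩ := hr.exists_walk_length_eq_dist
  cases p with
  | nil =>
    rw [SimpleGraph.Walk.length_nil] at hp
    exact absurd hp.symm h0
  | @cons _ u _ h q =>
    refine ⟨u, h, ?_⟩
    have h1 : G.dist u c ≤ q.length := SimpleGraph.dist_le q
    have h2 : G.dist v c ≤ G.dist v u + G.dist u c := dtri h.reachable q.reachable
    have h3 : G.dist v u = 1 := SimpleGraph.dist_eq_one_iff_adj.2 h
    rw [SimpleGraph.Walk.length_cons] at hp
    omega

theorem vor {V : Type} [Finite V] (G : SimpleGraph V) (C : Set V) (ra : V → ℕ)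
    (hsep : ∀ c ∈ C, ∀ c' ∈ C, c ≠ c' → ∀ u, ¬ (Nr G (ra c) c u ∧ Nr G (ra c') c' u)) :
    ∃ (ctr par : V → V) (dep : V → ℕ),
      (∀ v, (∃ c ∈ C, G.Reachable v c) → ctr v ∈ C ∧ G.Reachable v (ctr v)) ∧
      (∀ v, (¬ ∃ c ∈ C, G.Reachable v c) → ctr v = v) ∧
      (∀ c ∈ C, ctr c = c) ∧ (∀ v, ctr (ctr v) = ctr v) ∧ (∀ v, dep v = 0 ↔ ctr v = v) ∧
      (∀ v, dep v ≠ 0 → G.Adj v (par v)) ∧ (∀ v, dep v ≠ 0 → dep (par v) + 1 = dep v) ∧
      (∀ v, dep v ≠ 0 → ctr (par v) = ctr v) ∧ (∀ v t, Nr G t v (ctr v) → dep v ≤ t) ∧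
      (∀ v, ∀ c ∈ C, ∀ t, Nr G t v c → (dep v : ℤ) - ra (ctr v) ≤ (t : ℤ) - ra c) ∧
      (∀ c ∈ C, ∀ v, Nr G (ra c) c v → ctr v = c) ∧ ∀ v, Nr G (dep v) v (ctr v) := by
  classical
  have := Fintype.ofFinite V
  obtain ⟨idx, hidx, hlt⟩ : ∃ idx : V → ℤ, Function.Injective idx ∧
      ∀ v, 0 ≤ idx v ∧ idx v < Fintype.card V + 1 :=
    ⟨fun v => ((Fintype.equivFin V v : ℕ) : ℤ), fun a b h => (Fintype.equivFin V).injective
      (Fin.ext (by
        have h' : ((Fintype.equivFin V a : ℕ) : ℤ) = ((Fintype.equivFin V b : ℕ) : ℤ) := h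
        exact_mod_cast h')),
      fun v => by
        have h' := (Fintype.equivFin V v).2
        show 0 ≤ ((Fintype.equivFin V v : ℕ) : ℤ) ∧
          ((Fintype.equivFin V v : ℕ) : ℤ) < (Fintype.card V : ℤ) + 1
        omega⟩
  set N : ℤ := Fintype.card V + 1 with hN
  have hNpos : 0 < N := by positivity
  let key : V → V → ℤ := fun v c => ((G.dist v c : ℤ) - ra c) * N + idx c
  have hkinj : ∀ v c c', key v c = key v c' → c = c' := by
    intro v c c' h
    have h1 : (((G.dist v c : ℤ) - ra c) * N + idx c) % N =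
        (((G.dist v c' : ℤ) - ra c') * N + idx c') % N := congrArg (· % N) h
    rw [add_comm, Int.add_mul_emod_self_right, add_comm, Int.add_mul_emod_self_right,
      Int.emod_eq_of_lt (hlt c).1 (hlt c).2, Int.emod_eq_of_lt (hlt c').1 (hlt c').2] at h1
    exact hidx h1
  have hkle : ∀ v c c', key v c ≤ key v c' →
      (G.dist v c : ℤ) - ra c ≤ (G.dist v c' : ℤ) - ra c' := by
    intro v c c' h
    by_contra hcon
    push Not at hcon
    have h1 : ((G.dist v c' : ℤ) - ra c' + 1) * N ≤ ((G.dist v c : ℤ) - ra c) * N :=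
      mul_le_mul_of_nonneg_right hcon hNpos.le
    have h2 := hlt c
    have h3 := hlt c'
    simp only [key] at h
    rw [add_mul, one_mul] at h1
    omega
  have hmin : ∀ v, ∃ c, ((∃ c ∈ C, G.Reachable v c) → (c ∈ C ∧ G.Reachable v c) ∧
      ∀ c' ∈ C, G.Reachable v c' → key v c ≤ key v c') ∧
      ((¬ ∃ c ∈ C, G.Reachable v c) → c = v) := by
    intro v
    by_cases h : ∃ c ∈ C, G.Reachable v c
    · obtain ⟨c0, hc0, hr0⟩ := h
      obtain ⟨c, hc, h1⟩ := Finset.exists_min_image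
        (Finset.univ.filter fun c => c ∈ C ∧ G.Reachable v c) (key v)
        ⟨c0, Finset.mem_filter.2 ⟨Finset.mem_univ _, hc0, hr0⟩⟩
      refine ⟨c, fun _ => ⟨(Finset.mem_filter.1 hc).2, fun c' hc' hr' =>
        h1 c' (Finset.mem_filter.2 ⟨Finset.mem_univ _, hc', hr'⟩)⟩, fun h2 => absurd ⟨c0, hc0, hr0⟩ h2⟩
    · exact ⟨v, fun h1 => absurd h1 h, fun _ => rfl⟩
  choose ctr hctr1 hctr2 using hmin
  have huniq : ∀ v c, c ∈ C → G.Reachable v c →
      (∀ c' ∈ C, G.Reachable v c' → key v c ≤ key v c') → ctr v = c := by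
    intro v c hc hr h
    obtain ⟨⟨h1, h2⟩, h3⟩ := hctr1 v ⟨c, hc, hr⟩
    exact hkinj v _ _ (le_antisymm (h3 c hc hr) (h _ h1 h2))
  have hreach : ∀ v, G.Reachable v (ctr v) := by
    intro v
    by_cases h : ∃ c ∈ C, G.Reachable v c
    · exact (hctr1 v h).1.2
    · rw [hctr2 v h]
  have hball : ∀ c ∈ C, ∀ v, Nr G (ra c) c v → ctr v = c := by
    intro c hc v hv
    obtain ⟨hr, hd⟩ := nr_iff.1 hv
    apply huniq v c hc hr.symm
    intro c' hc' hr'
    by_cases hcc : c' = c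
    · rw [hcc]
    · have h1 := hsep c hc c' hc' (Ne.symm hcc) v
      have h2 : ra c' < G.dist c' v := by
        by_contra h3
        exact h1 ⟨hv, nr_iff.2 ⟨hr'.symm, by omega⟩⟩
      have h3 : ((G.dist v c : ℤ) - ra c) * N ≤ 0 * N := by
        refine mul_le_mul_of_nonneg_right ?_ hNpos.le
        rw [SimpleGraph.dist_comm]
        omega
      have h4 : 1 * N ≤ ((G.dist v c' : ℤ) - ra c') * N := by
        refine mul_le_mul_of_nonneg_right ?_ hNpos.le
        rw [SimpleGraph.dist_comm]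
        omega
      have h5 := hlt c
      have h6 := hlt c'
      simp only [key]
      omega
  have hpar : ∀ v, ∃ u, G.dist v (ctr v) ≠ 0 →
      G.Adj v u ∧ G.dist u (ctr v) + 1 = G.dist v (ctr v) := by
    intro v
    by_cases h0 : G.dist v (ctr v) = 0
    · exact ⟨v, fun h => absurd h0 h⟩
    · obtain ⟨u, h, h1⟩ := step (hreach v) h0
      exact ⟨u, fun _ => ⟨h, h1⟩⟩
  choose par hpar using hpar
  have hz : ∀ v, G.dist v (ctr v) = 0 ↔ ctr v = v := by
    intro v
    rw [(hreach v).dist_eq_zero_iff]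
    exact eq_comm
  have hex : ∀ v, G.dist v (ctr v) ≠ 0 → ∃ c ∈ C, G.Reachable v c := by
    intro v h
    by_contra hcon
    exact h ((hz v).2 (hctr2 v hcon))
  have hparctr : ∀ v, G.dist v (ctr v) ≠ 0 → ctr (par v) = ctr v := by
    intro v hv
    obtain ⟨h1, h2⟩ := hpar v hv
    obtain ⟨⟨h3, h4⟩, h5⟩ := hctr1 v (hex v hv)
    apply huniq _ _ h3 (h1.symm.reachable.trans h4)
    intro c' hc' hr'
    have h6 := h5 c' hc' (h1.reachable.trans hr')
    have h7 : G.dist v c' ≤ G.dist v (par v) + G.dist (par v) c' := dtri h1.reachable hr'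
    have h8 : G.dist v (par v) = 1 := SimpleGraph.dist_eq_one_iff_adj.2 h1
    have h9 : ((G.dist v c' : ℤ) - ra c' - 1) * N ≤ ((G.dist (par v) c' : ℤ) - ra c') * N :=
      mul_le_mul_of_nonneg_right (by omega) hNpos.le
    have h10 : ((G.dist (par v) (ctr v) : ℤ) - ra (ctr v)) =
        ((G.dist v (ctr v) : ℤ) - ra (ctr v)) - 1 := by
      omega
    simp only [key] at h6 ⊢
    rw [h10, sub_mul, one_mul]
    rw [sub_mul, one_mul] at h9
    omega
  have hcc : ∀ c ∈ C, ctr c = c := fun c hc => hball c hc c (Nr.refl _ _ _)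
  refine ⟨ctr, par, fun v => G.dist v (ctr v), fun v h => (hctr1 v h).1, hctr2, hcc, ?_, hz,
    fun v hv => (hpar v hv).1, ?_, hparctr, ?_, ?_, hball, ?_⟩
  · intro v
    by_cases h : ∃ c ∈ C, G.Reachable v c
    · exact hcc _ (hctr1 v h).1.1
    · rw [hctr2 v h, hctr2 v h]
  · intro v hv
    show G.dist (par v) (ctr (par v)) + 1 = G.dist v (ctr v)
    rw [hparctr v hv]
    exact (hpar v hv).2
  · intro v t h
    exact (nr_iff.1 h).2
  · intro v c hc t h
    obtain ⟨h1, h2⟩ := nr_iff.1 h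
    have h3 := hkle v _ _ ((hctr1 v ⟨c, hc, h1⟩).2 c hc h1)
    have h4 : (G.dist v c : ℤ) ≤ t := by exact_mod_cast h2
    show ((G.dist v (ctr v) : ℕ) : ℤ) - ra (ctr v) ≤ (t : ℤ) - ra c
    omega
  · intro v
    exact nr_iff.2 ⟨hreach v, le_rfl⟩

end Pool.Agent.Helper63.HH
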