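import Pool.Agent.Helper93.HH.Sys
import Pool.Agent.Helper63.HH.Vor
import Pool.Agent.Helper63.HH.Fr
import Pool.Agent.Helper63.UP.Cells
import Pool.Agent.Helper83.OP.Nlc

/-!
# HH-CE: the system of cells
-/

open Set
open Pool.Agent.Helper83.OP
open Pool.Agent.Helper93.HH

namespace Pool.Agent.Helper63.HH

section

variable {V P Q : Type} [Finite V] [Finite P] {D : HD V P Q} {K : ℕ}

/-- three different elements -/
private theorem three_of {α : Type} [Finite α] {S : Set α} (h : ¬ S.ncard ≤ 2) :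
    ∃ a b c, a ≠ b ∧ a ≠ c ∧ b ≠ c ∧ a ∈ S ∧ b ∈ S ∧ c ∈ S := by
  obtain ⟨F, hF, hF3⟩ := Set.exists_subset_card_eq (s := S) (n := 3) (by omega)
  rw [Set.ncard_eq_three] at hF3
  obtain ⟨p, q, s, h1, h2, h3, rfl⟩ := hF3
  exact ⟨p, q, s, h1, h2, h3, hF (by simp), hF (by simp), hF (by simp)⟩

private theorem card_pos (y : V) : 0 < Nat.card V := by
  have : Nonempty V := ⟨y⟩
  exact Nat.card_pos

/-- three pins in the component of `y` -/
private theorem sg_lt {y : V} {p q s : P} (hpq : p ≠ q) (hps : p ≠ s) (hqs : q ≠ s)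
    (hp : D.N.Reachable y (D.x p)) (hq : D.N.Reachable y (D.x q))
    (hs : D.N.Reachable y (D.x s)) : D.sg y < Nat.card V := by
  have h1 := D.sg_three hpq hps hqs (Nr.of_reachable hp) (Nr.of_reachable hq) (Nr.of_reachable hs)
  have := card_pos y
  omega

/-- if `sg` is maximal at `y`, then there are at most two pins in the component -/
private theorem two_pins {y : V} (h : D.sg y = Nat.card V) :
    {p | D.N.Reachable y (D.x p)}.ncard ≤ 2 := by
  by_contra hcon
  obtain ⟨p, q, s, h1, h2, h3, hp, hq, hs⟩ := three_of hcon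
  have := sg_lt h1 h2 h3 hp hq hs
  omega

private theorem sg_eq_of_reach {y y' : V} (hr : D.N.Reachable y y') (h : D.sg y = Nat.card V) :
    D.sg y' = Nat.card V := by
  by_contra hcon
  have h1 : D.sg y' < Nat.card V := lt_of_le_of_ne (D.sg_le_card y') hcon
  obtain ⟨p, q, s, h1, h2, h3, h4, h5, h6⟩ := D.sg_three' h1
  have := sg_lt h1 h2 h3 (hr.trans h4.reachable) (hr.trans h5.reachable) (hr.trans h6.reachable)
  omega

/-- a component with at most two pins contains a thick vertex -/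
theorem exists_thick (hD : D.Ok) (hK : 10 ≤ K) (hN : D.NoPl (10 ^ 6 * K))
    (hc : ∀ v (Z : D.N.Walk v v), Z.IsCycle → ∀ y ∈ Z.support, 5000 * K * D.Rs y < Z.length)
    {y : V} (hy : y ∈ D.VN) (h : D.sg y = Nat.card V) :
    ∃ z ∈ D.VN, D.N.Reachable y z ∧ D.Thick z := by
  classical
  have := Fintype.ofFinite V
  have := Fintype.ofFinite P
  by_contra hcon
  push Not at hcon
  -- no cycle in the component
  have hno : ∀ v (Z : D.N.Walk v v), Z.IsCycle → ¬ D.N.Reachable y v := by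
    intro v Z hZ hr
    have hv : v ∈ D.VN := HD.VN_of_nr (Nr.of_reachable hr) hy
    have h1 := hcon v hv hr
    have h2 := hc v Z hZ v Z.start_mem_support
    have h3 := sg_eq_of_reach hr h
    unfold HD.Thick at h1
    have h4 : Nat.card V ≤ 100 * D.Rs v := by
      have := D.Rv_le_card v
      unfold HD.Rs
      omega
    have h5 : Z.length ≤ Nat.card V := by
      have h6 := hZ.support_nodup
      have h7 := h6.length_le_card
      rw [List.length_tail, SimpleGraph.Walk.length_support, ← Nat.card_eq_fintype_card] at h7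
      omega
    have h6 : 100 * D.Rs v ≤ 5000 * K * D.Rs v := Nat.mul_le_mul_right _ (by omega)
    omega
  -- the cells with the single centre `y`
  obtain ⟨ctr, par, dep, c1, c2, c3, c4, c5, c6, c7, c8, c9, c10, c11, c12⟩ :=
    vor D.N {y} (fun _ => 0) (by
      intro c hc c' hc' hne
      exact absurd ((Set.mem_singleton_iff.1 hc).trans (Set.mem_singleton_iff.1 hc').symm) hne)
  have hM : ∀ v, ctr v = y ↔ D.N.Reachable y v := by
    intro v
    constructor
    · intro hv
      have := (c12 v).reachable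
      rw [hv] at this
      exact this.symm
    · intro hv
      exact (c1 v ⟨y, rfl, hv.symm⟩).1
  set R : V → ℕ := fun v => if ctr v = y then Nat.card V else 0 with hR
  have hdep : ∀ v, dep v ≤ R v := by
    intro v
    by_cases hv : ctr v = y
    · rw [hR]
      simp only [hv, if_true]
      exact c9 v _ (by rw [hv]; exact Nr.card ((hM v).1 hv).symm)
    · have h1 : ¬ ∃ c ∈ ({y} : Set V), D.N.Reachable v c := by
        rintro ⟨c, hc, hr⟩
        rw [Set.mem_singleton_iff.1 hc] at hr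
        exact hv ((hM v).2 hr.symm)
      have h2 := (c5 v).2 (c2 v h1)
      omega
  let F : Fr D.N R :=
    { ctr := ctr, par := par, dep := dep, ctr_ctr := c4, dep_zero := c5, par_adj := c6
      par_dep := c7, par_ctr := c8
      rad := fun v k hk => by
        have := hdep v
        omega }
  have hsp : Sparse D.N R 8 := by
    intro x Z hZ
    have h1 : R x = 0 := by
      rw [hR]
      simp only
      rw [if_neg]
      intro h2
      exact hno x Z hZ ((hM x).1 h2)
    have h2 := hN.e0 x Z hZ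
    have h3 : 1 ≤ D.L := by
      have := hD.r_pos
      have := hD.r_le
      omega
    have h4 : 10 ^ 6 * 10 * 1 ≤ 10 ^ 6 * K * D.L :=
      Nat.mul_le_mul (Nat.mul_le_mul_left _ hK) h3
    rw [h1]
    omega
  set S : Finset V := Finset.univ.filter fun v => ctr v = y with hS
  have hyy : ctr y = y := c3 y rfl
  have h1 := F.deg_Q0 hsp (by norm_num) (s := y) hyy S (fun v => by
    rw [hS, Finset.mem_filter]
    exact ⟨fun h => h.2, fun h => ⟨Finset.mem_univ v, h⟩⟩)
  have h2 : deg F.Q0 y = 0 := by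
    unfold deg
    rw [Set.ncard_eq_zero (Set.toFinite _)]
    ext t
    simp only [Set.mem_empty_iff_false, iff_false]
    rintro ⟨h3, u, v, h4, h5, h6⟩
    apply h3
    have h7 : ctr u = y := h5
    have h8 : ctr v = t := h6
    rw [← h8]
    exact ((hM v).2 (((hM u).1 h7).trans h4.reachable)).symm
  have hVN : ∀ v ∈ S, v ∈ D.VN := by
    intro v hv
    rw [hS, Finset.mem_filter] at hv
    exact HD.VN_of_nr (Nr.of_reachable ((hM v).1 hv.2)) hy
  have h3 : ∑ v ∈ S, D.dg v = ∑ v ∈ S, deg D.N v + ∑ v ∈ S, D.pn v := by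
    rw [← Finset.sum_add_distrib]
    rfl
  have h4 : 2 * S.card ≤ ∑ v ∈ S, D.dg v := by
    rw [mul_comm, ← smul_eq_mul, ← Finset.sum_const]
    exact Finset.sum_le_sum fun v hv => hD.two v (hVN v hv)
  have h5 : ∑ v ∈ S, D.pn v = {p | D.N.Reachable y (D.x p)}.ncard := by
    rw [ncard_fiber {p | D.N.Reachable y (D.x p)} S D.x (fun p hp => by
      rw [hS, Finset.mem_filter]
      exact ⟨Finset.mem_univ _, (hM _).2 hp⟩)]
    refine Finset.sum_congr rfl fun v hv => ?_
    unfold HD.pn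
    congr 1
    ext p
    rw [hS, Finset.mem_filter] at hv
    constructor
    · intro hp
      have hp' : D.x p = v := hp
      exact ⟨by
        show D.N.Reachable y (D.x p)
        rw [hp']
        exact (hM v).1 hv.2, hp⟩
    · exact fun hp => hp.2
  have h6 := two_pins h
  -- there is a pin, its vertex has degree at least three
  have h7 : 1 ≤ ∑ v ∈ S, D.pn v := by omega
  obtain ⟨v, hv, hpn⟩ : ∃ v ∈ S, 1 ≤ D.pn v := by
    by_contra hc
    push Not at hc
    have : ∑ v ∈ S, D.pn v = 0 := Finset.sum_eq_zero fun v hv => by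
      have := hc v hv
      omega
    omega
  have h8 : 3 ≤ D.dg v := by
    unfold HD.pn at hpn
    obtain ⟨p, hp⟩ := (Set.ncard_pos (Set.toFinite _)).1 hpn
    have hp' : D.x p = v := hp
    rw [← hp']
    exact hD.three p
  have h9 : 2 * S.card + 1 ≤ ∑ v ∈ S, D.dg v := by
    have e1 : ∑ v ∈ S, D.dg v = D.dg v + ∑ w ∈ S.erase v, D.dg w :=
      (Finset.add_sum_erase S _ hv).symm
    have e2 : 2 * (S.erase v).card ≤ ∑ w ∈ S.erase v, D.dg w := by
      rw [mul_comm, ← smul_eq_mul, ← Finset.sum_const]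
      exact Finset.sum_le_sum fun w hw => hD.two w (hVN w (Finset.mem_of_mem_erase hw))
    have e3 : (S.erase v).card + 1 = S.card := Finset.card_erase_add_one hv
    omega
  omega

private theorem count2 (B : Set P) (Z : Set V) (rel : P → V → Prop)
    (h1 : ∀ p ∈ B, ∃ z ∈ Z, rel p z) (h2 : ∀ z ∈ Z, {p | p ∈ B ∧ rel p z}.ncard ≤ 2) :
    B.ncard ≤ 2 * Z.ncard := by
  classical
  have := Fintype.ofFinite V
  rcases B.eq_empty_or_nonempty with h0 | ⟨b, hb⟩
  · rw [h0, Set.ncard_empty]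
    exact Nat.zero_le _
  obtain ⟨z0, -⟩ := h1 b hb
  have hex : ∀ p, ∃ z, p ∈ B → z ∈ Z ∧ rel p z := by
    intro p
    by_cases hp : p ∈ B
    · obtain ⟨z, hz, hr⟩ := h1 p hp
      exact ⟨z, fun _ => ⟨hz, hr⟩⟩
    · exact ⟨z0, fun h => absurd h hp⟩
  choose f hf using hex
  rw [ncard_fiber B Z.toFinset f (fun p hp => by simpa using (hf p hp).1),
    Set.ncard_eq_toFinset_card' Z, mul_comm, ← smul_eq_mul, ← Finset.sum_const]
  refine Finset.sum_le_sum fun z hz => ?_
  refine le_trans (Set.ncard_le_ncard ?_ (Set.toFinite _)) (h2 z (by simpa using hz))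
  rintro p ⟨hp, hpz⟩
  exact ⟨hp, by rw [← hpz]; exact (hf p hp).2⟩

theorem exists_sys' (hD : D.Ok) (hK : 10 ≤ K) (hN : D.NoPl (10 ^ 6 * K))
    (hc : ∀ v (Z : D.N.Walk v v), Z.IsCycle → ∀ y ∈ Z.support, 5000 * K * D.Rs y < Z.length) :
    Nonempty (Sys D K) := by
  classical
  have := Fintype.ofFinite V
  have := Fintype.ofFinite P
  -- thick centres
  obtain ⟨C0, hC1, hC2⟩ := Pool.Agent.Helper63.UP.centres (V := {v // v ∈ D.VN ∧ D.Thick v})
    (fun v => D.Rv v.1) (fun x y => ∃ u, Nr D.N (D.Rv x.1) x.1 u ∧ Nr D.N (D.Rv y.1) y.1 u)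
    (fun x y ⟨u, h1, h2⟩ => ⟨u, h2, h1⟩) (fun x => ⟨x.1, Nr.refl _ _ _, Nr.refl _ _ _⟩)
  set Z : Set V := Subtype.val '' C0 with hZ
  have hZVN : ∀ z ∈ Z, z ∈ D.VN := by
    rintro z ⟨z', -, rfl⟩
    exact z'.2.1
  have hZth : ∀ z ∈ Z, D.Thick z := by
    rintro z ⟨z', -, rfl⟩
    exact z'.2.2
  have hZsep : ∀ z ∈ Z, ∀ z' ∈ Z, z ≠ z' → ∀ u,
      ¬ (Nr D.N (D.Rv z) z u ∧ Nr D.N (D.Rv z') z' u) := by
    rintro z ⟨a, ha, rfl⟩ z' ⟨b, hb, rfl⟩ hne u h
    exact hC1 a ha b hb (fun h => hne (congrArg Subtype.val h)) ⟨u, h⟩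
  have hZdom : ∀ y ∈ D.VN, D.Thick y → ∃ z ∈ Z, D.Rv z ≤ D.Rv y ∧
      Nr D.N (D.Rv y + D.Rv z) y z := by
    intro y hy hth
    obtain ⟨c, hc, h1, u, h2, h3⟩ := hC2 ⟨y, hy, hth⟩
    exact ⟨c.1, ⟨c, hc, rfl⟩, h1, h2.trans h3.symm⟩
  set Bd : Set P := {p | D.Thick (D.x p) ∨ (∃ z ∈ Z, Nr D.N (D.Rv z) z (D.x p)) ∨
    D.sg (D.x p) = Nat.card V} with hBd
  set ra : V → ℕ := fun v => if v ∈ Z then D.Rv v else 0 with hra
  have hraZ : ∀ z ∈ Z, ra z = D.Rv z := fun z hz => by
    rw [hra]; simp only [hz, if_true]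
  have hxZ : ∀ p, p ∉ Bd → D.x p ∉ Z := by
    intro p hp hz
    exact hp (Or.inr (Or.inl ⟨_, hz, Nr.refl _ _ _⟩))
  have hrax : ∀ p, p ∉ Bd → ra (D.x p) = 0 := fun p hp => by
    rw [hra]; simp only [hxZ p hp, if_false]
  set C : Set V := Z ∪ D.x '' Bdᶜ with hC
  have hsep : ∀ c ∈ C, ∀ c' ∈ C, c ≠ c' → ∀ u, ¬ (Nr D.N (ra c) c u ∧ Nr D.N (ra c') c' u) := by
    have key : ∀ z ∈ Z, ∀ p, p ∉ Bd → ∀ u,
        ¬ (Nr D.N (ra z) z u ∧ Nr D.N (ra (D.x p)) (D.x p) u) := by
      rintro z hz p hp u ⟨h1, h2⟩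
      rw [hraZ z hz] at h1
      rw [hrax p hp] at h2
      rw [← Nr.eq h2] at h1
      exact hp (Or.inr (Or.inl ⟨z, hz, h1⟩))
    rintro c (hc | ⟨p, hp, rfl⟩) c' (hc' | ⟨p', hp', rfl⟩) hne u ⟨h1, h2⟩
    · rw [hraZ c hc] at h1
      rw [hraZ c' hc'] at h2
      exact hZsep c hc c' hc' hne u ⟨h1, h2⟩
    · exact key c hc p' hp' u ⟨h1, h2⟩
    · exact key c' hc' p hp u ⟨h2, h1⟩
    · rw [hrax p hp] at h1
      rw [hrax p' hp'] at h2
      exact hne ((Nr.eq h1).trans (Nr.eq h2).symm)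
  -- a thick centre in every component with at most two pins
  have hthc : ∀ y ∈ D.VN, D.sg y = Nat.card V → ∃ z ∈ Z, D.N.Reachable y z := by
    intro y hy h
    obtain ⟨z0, h1, h2, h3⟩ := exists_thick hD hK hN hc hy h
    obtain ⟨z, h4, -, h5⟩ := hZdom z0 h1 h3
    exact ⟨z, h4, h2.trans h5.reachable⟩
  have hcomp : ∀ y ∈ D.VN, ∃ c ∈ C, D.N.Reachable y c := by
    intro y hy
    by_cases h : D.sg y = Nat.card V
    · obtain ⟨z, hz, hr⟩ := hthc y hy h
      exact ⟨z, Or.inl hz, hr⟩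
    · have h1 : D.sg y < Nat.card V := lt_of_le_of_ne (D.sg_le_card y) h
      obtain ⟨p, q, s, -, -, -, h4, -, -⟩ := D.sg_three' h1
      by_cases hp : p ∈ Bd
      · rcases hp with hp | ⟨z, hz, hp⟩ | hp
        · obtain ⟨z, h5, -, h6⟩ := hZdom _ (HD.x_VN p) hp
          exact ⟨z, Or.inl h5, h4.reachable.trans h6.reachable⟩
        · exact ⟨z, Or.inl hz, h4.reachable.trans hp.reachable.symm⟩
        · exact absurd (sg_eq_of_reach h4.reachable.symm hp) h
      · exact ⟨D.x p, Or.inr ⟨p, hp, rfl⟩, h4.reachable⟩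
  obtain ⟨ctr, par, dep, c1, c2, c3, c4, c5, c6, c7, c8, c9, c10, c11, c12⟩ := vor D.N C ra hsep
  let E : Cel D C ra :=
    { ctr := ctr, par := par, dep := dep
      ctr_mem := fun v hv => (c1 v (hcomp v hv)).1
      ctr_C := c3, ctr_ctr := c4, dep_zero := c5, par_adj := c6, par_dep := c7, par_ctr := c8
      dep_min := c9, score := fun v _ c hc t h => c10 v c hc t h, ball := c11 }
  have hsc : ∀ v, E.sc v = (dep v : ℤ) - ra (ctr v) := fun v => rfl
  -- scores of thick points and of points of thick balls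
  have s1 : ∀ y ∈ D.VN, D.Thick y → E.sc y ≤ D.Rv y := by
    intro y hy h
    obtain ⟨z, hz, -, hn⟩ := hZdom y hy h
    have h1 := c10 y z (Or.inl hz) _ hn
    rw [hraZ z hz] at h1
    rw [hsc]
    push_cast at h1
    omega
  have nonth : ∀ y, ¬ D.Thick y → D.sg y ≤ 100 * D.Rs y := by
    intro y h
    unfold HD.Thick at h
    unfold HD.Rs
    omega
  have scup : ∀ y ∈ D.VN, E.sc y ≤ 200 * D.Rs y := by
    intro y hy
    by_cases hth : D.Thick y
    · have h1 := s1 y hy hth
      have h2 : D.Rs y = D.Rv y := by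
        unfold HD.Thick at hth
        unfold HD.Rs
        omega
      rw [h2]
      omega
    · have h0 := nonth y hth
      by_cases h : D.sg y = Nat.card V
      · obtain ⟨z, hz, hr⟩ := hthc y hy h
        have h1 := c10 y z (Or.inl hz) _ (Nr.card hr)
        rw [hsc]
        omega
      · have h1 : D.sg y < Nat.card V := lt_of_le_of_ne (D.sg_le_card y) h
        obtain ⟨p, q, s, -, -, -, h4, -, -⟩ := D.sg_three' h1
        by_cases hp : p ∈ Bd
        · rcases hp with hp | ⟨z, hz, hp⟩ | hp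
          · obtain ⟨z, h5, -, h6⟩ := hZdom _ (HD.x_VN p) hp
            have h7 := c10 y z (Or.inl h5) _ (h4.trans h6)
            have h8 := D.sg_lip h4.symm
            rw [hraZ z h5] at h7
            unfold HD.Thick at hp
            rw [hsc]
            push_cast at h7
            omega
          · have h7 := c10 y z (Or.inl hz) _ (h4.trans hp.symm)
            rw [hraZ z hz] at h7
            rw [hsc]
            push_cast at h7
            omega
          · exact absurd (sg_eq_of_reach h4.reachable.symm hp) h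
        · have h7 := c10 y (D.x p) (Or.inr ⟨p, hp, rfl⟩) _ h4
          rw [hrax p hp] at h7
          rw [hsc]
          push_cast at h7
          omega
  have sclow : ∀ y ∈ D.VN, - E.sc y ≤ 200 * D.Rs y := by
    intro y hy
    rw [hsc]
    rcases (c1 y (hcomp y hy)).1 with hz | ⟨p, hp, hpe⟩
    · have h1 : 100 * D.Rv (ctr y) < D.sg (ctr y) := hZth _ hz
      have h2 := D.sg_lip (c12 y).symm
      have h3 := D.Rv_lip (c12 y).symm
      rw [hraZ _ hz]
      unfold HD.Rs
      omega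
    · rw [← hpe, hrax p hp]
      omega
  have scle : ∀ y ∈ D.VN, |E.sc y| ≤ 200 * D.Rs y := fun y hy =>
    abs_le.2 ⟨by have := sclow y hy; omega, scup y hy⟩
  -- two pins in the cell of a good pin
  have hone : ∀ p p', ctr (D.x p) = ctr (D.x p') → ctr (D.x p) ∉ Z → ctr (D.x p) ≠ D.x p →
      ctr (D.x p') ≠ D.x p' → p = p' := by
    have hbad : ∀ p, ctr (D.x p) ∉ Z → ctr (D.x p) ≠ D.x p → D.Thick (D.x p) := by
      intro p h1 h2
      have hp : p ∈ Bd := by
        by_contra h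
        exact h2 (c3 _ (Or.inr ⟨p, h, rfl⟩))
      rcases hp with hp | ⟨z, hz, hp⟩ | hp
      · exact hp
      · exfalso
        apply h1
        rw [c11 z (Or.inl hz) (D.x p) (by rw [hraZ z hz]; exact hp)]
        exact hz
      · exfalso
        rcases (c1 _ (hcomp _ (HD.x_VN p))).1 with hz | ⟨q, hq, hqe⟩
        · exact h1 hz
        · apply hq
          right; right
          rw [hqe]
          exact sg_eq_of_reach (c12 (D.x p)).reachable hp
    have key : ∀ p p', ctr (D.x p) = ctr (D.x p') → ctr (D.x p) ∉ Z → ctr (D.x p) ≠ D.x p →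
        ctr (D.x p') ≠ D.x p' → dep (D.x p) ≤ dep (D.x p') → p = p' := by
      intro p p' h1 h2 h3 h4 h5
      by_contra hne
      have t1 := hbad p h2 h3
      have t2 := hbad p' (by rw [← h1]; exact h2) h4
      rcases (c1 _ (hcomp _ (HD.x_VN p'))).1 with hz | ⟨q, hq, hqe⟩
      · exact h2 (h1 ▸ hz)
      · have e1 : q ≠ p := by
          rintro rfl
          exact hq (Or.inl t1)
        have e2 : q ≠ p' := by
          rintro rfl
          exact hq (Or.inl t2)
        have e3 := s1 _ (HD.x_VN p') t2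
        rw [hsc, ← hqe, hrax q hq] at e3
        have n1 : Nr D.N (dep (D.x p')) (D.x p') (D.x q) := by
          rw [hqe]; exact c12 _
        have n2 : Nr D.N (dep (D.x p)) (D.x p) (D.x q) := by
          rw [hqe, ← h1]; exact c12 _
        have e4 := D.sg_three (y := D.x p') (t := dep (D.x p') + dep (D.x p)) e1 e2 hne
          (n1.mono (by omega)) (n1.trans n2.symm) (Nr.refl _ _ _)
        have t3 : 100 * D.Rv (D.x p') < D.sg (D.x p') := t2
        push_cast at e3
        omega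
    intro p p' h1 h2 h3 h4
    rcases le_total (dep (D.x p)) (dep (D.x p')) with h | h
    · exact key p p' h1 h2 h3 h4 h
    · exact (key p' p h1.symm (by rw [← h1]; exact h2) h4 h3 h).symm
  -- the number of bad pins
  have hcount : Bd.ncard ≤ 8 * Z.ncard := by
    have b1 : {p | D.Thick (D.x p)}.ncard ≤ 2 * Z.ncard := by
      refine count2 _ Z (fun p z => D.Rv z ≤ D.Rv (D.x p) ∧
        Nr D.N (D.Rv (D.x p) + D.Rv z) (D.x p) z) (fun p hp => ?_) (fun z hz => ?_)
      · obtain ⟨z, h1, h2, h3⟩ := hZdom _ (HD.x_VN p) hp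
        exact ⟨z, h1, h2, h3⟩
      · by_contra hcon
        obtain ⟨a, b, c, h1, h2, h3, ⟨ta, ra1, ra2⟩, ⟨tb, rb1, rb2⟩, ⟨tc, rc1, rc2⟩⟩ :=
          three_of hcon
        have key : ∀ a b c : P, a ≠ b → a ≠ c → b ≠ c → D.Thick (D.x a) →
            D.Rv z ≤ D.Rv (D.x a) → D.Rv z ≤ D.Rv (D.x b) → D.Rv z ≤ D.Rv (D.x c) →
            Nr D.N (D.Rv (D.x a) + D.Rv z) (D.x a) z → Nr D.N (D.Rv (D.x b) + D.Rv z) (D.x b) z →
            Nr D.N (D.Rv (D.x c) + D.Rv z) (D.x c) z → D.Rv (D.x b) ≤ D.Rv (D.x a) →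
            D.Rv (D.x c) ≤ D.Rv (D.x a) → False := by
          intro a b c h1 h2 h3 ta ra1 rb1 rc1 ra2 rb2 rc2 hb hcc
          have e1 := D.sg_three (y := D.x a) (t := 4 * D.Rv (D.x a)) h1 h2 h3 (Nr.refl _ _ _)
            ((ra2.trans rb2.symm).mono (by omega)) ((ra2.trans rc2.symm).mono (by omega))
          have ta' : 100 * D.Rv (D.x a) < D.sg (D.x a) := ta
          omega
        rcases le_total (D.Rv (D.x b)) (D.Rv (D.x a)) with l1 | l1
        · rcases le_total (D.Rv (D.x c)) (D.Rv (D.x a)) with l2 | l2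
          · exact key a b c h1 h2 h3 ta ra1 rb1 rc1 ra2 rb2 rc2 l1 l2
          · exact key c a b h2.symm h3.symm h1 tc rc1 ra1 rb1 rc2 ra2 rb2 l2 (l1.trans l2)
        · rcases le_total (D.Rv (D.x c)) (D.Rv (D.x b)) with l2 | l2
          · exact key b a c h1.symm h3 h2 tb rb1 ra1 rc1 rb2 ra2 rc2 l1 l2
          · exact key c a b h2.symm h3.symm h1 tc rc1 ra1 rb1 rc2 ra2 rb2 (l1.trans l2) l2
    have b2 : {p | ∃ z ∈ Z, Nr D.N (D.Rv z) z (D.x p)}.ncard ≤ 2 * Z.ncard := by
      refine count2 _ Z (fun p z => Nr D.N (D.Rv z) z (D.x p)) (fun p hp => hp)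
        (fun z hz => ?_)
      by_contra hcon
      obtain ⟨a, b, c, h1, h2, h3, ⟨-, ha⟩, ⟨-, hb⟩, ⟨-, hcc⟩⟩ := three_of hcon
      have e1 := D.sg_three h1 h2 h3 ha hb hcc
      have e2 : 100 * D.Rv z < D.sg z := hZth z hz
      omega
    have b3 : {p | D.sg (D.x p) = Nat.card V}.ncard ≤ 2 * Z.ncard := by
      refine count2 _ Z (fun p z => D.N.Reachable (D.x p) z)
        (fun p hp => hthc _ (HD.x_VN p) hp) (fun z hz => ?_)
      by_contra hcon
      obtain ⟨a, b, c, h1, h2, h3, ⟨ea, ha⟩, ⟨-, hb⟩, ⟨-, hcc⟩⟩ := three_of hcon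
      have e1 := sg_lt (y := D.x a) h1 h2 h3 (SimpleGraph.Reachable.refl _)
        (ha.trans hb.symm) (ha.trans hcc.symm)
      have e2 : D.sg (D.x a) = Nat.card V := ea
      omega
    have hsub : Bd ⊆ {p | D.Thick (D.x p)} ∪ ({p | ∃ z ∈ Z, Nr D.N (D.Rv z) z (D.x p)} ∪
        {p | D.sg (D.x p) = Nat.card V}) := by
      rintro p (h | h | h)
      · exact Or.inl h
      · exact Or.inr (Or.inl h)
      · exact Or.inr (Or.inr h)
    have i1 := Set.ncard_le_ncard hsub (Set.toFinite _)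
    have i2 := Set.ncard_union_le {p | D.Thick (D.x p)}
      ({p | ∃ z ∈ Z, Nr D.N (D.Rv z) z (D.x p)} ∪ {p | D.sg (D.x p) = Nat.card V})
    have i3 := Set.ncard_union_le {p | ∃ z ∈ Z, Nr D.N (D.Rv z) z (D.x p)}
      {p | D.sg (D.x p) = Nat.card V}
    omega
  refine ⟨{ Z := Z, Bd := Bd, ra := ra, E := E, Z_VN := hZVN, Z_thick := hZth, ra_Z := hraZ
            ra_x := hrax, bd_thick := fun p hp => Or.inl hp
            bd_card := fun p hp => Or.inr (Or.inr hp)
            bd_ball := fun p z hz hp => Or.inr (Or.inl ⟨z, hz, hp⟩)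
            bd_count := hcount, bd_one := ?_, sc_le := scle, sparse := ?_ }⟩
  · rintro v v' ⟨p, rfl⟩ ⟨p', rfl⟩ h1 h2 h3 h4
    refine ⟨congrArg D.x (hone p p' h1 h2 h3 h4), ?_⟩
    rw [Set.ncard_le_one (Set.toFinite _)]
    intro a ha b hb
    have ha' : D.x a = D.x p := ha
    have hb' : D.x b = D.x p := hb
    exact hone a b (by rw [ha', hb']) (by rw [ha']; exact h2) (by rw [ha']; exact h3)
      (by rw [hb']; exact h3)
  · intro v Cy hCy y hy
    have hyV : y ∈ D.VN := by
      have hv : v ∈ D.VN := by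
        cases Cy with
        | nil => exact absurd rfl hCy.ne_nil
        | cons h _ => exact HD.VN_of_adj h
      exact HD.VN_of_walk Cy hv hy
    have h1 := scle y hyV
    have h2 := hc v Cy hCy y hy
    have h3 := hN.e0 v Cy hCy
    have e1 : 5000 * K * D.Rs y = 5000 * (K * D.Rs y) := by ring
    have e2 : 10 ^ 6 * K * D.L = 10 ^ 6 * (K * D.L) := by ring
    rw [e1] at h2
    rw [e2] at h3
    have h4 : (K : ℤ) * (|E.sc y| + D.L) ≤ (K : ℤ) * (200 * D.Rs y + D.L) :=
      mul_le_mul_of_nonneg_left (by omega) (by positivity)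
    refine lt_of_le_of_lt h4 ?_
    have h5 : (K : ℤ) * (200 * D.Rs y + D.L) = ((200 * (K * D.Rs y) + K * D.L : ℕ) : ℤ) := by
      push_cast; ring
    rw [h5]
    exact_mod_cast (by omega : 200 * (K * D.Rs y) + K * D.L < Cy.length)

end

theorem exists_sys {V P Q : Type} [Finite V] [Finite P] [Finite Q] {D : HD V P Q} {K : ℕ}
    (hD : D.Ok) (hK : 10 ≤ K) (hN : D.NoPl (10 ^ 6 * K))
    (hc : ∀ v (Z : D.N.Walk v v), Z.IsCycle → ∀ y ∈ Z.support, 5000 * K * D.Rs y < Z.length) :
    Nonempty (Sys D K) :=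
  exists_sys' hD hK hN hc

end Pool.Agent.Helper63.HH
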